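import Mathlib

set_option autoImplicit false

namespace Pool.Agent.H.MP_af75b4_an

open MeasureTheory Set Matrix
open scoped Pointwise RealInnerProductSpace

abbrev E := EuclideanSpace ℝ (Fin 3)
abbrev S := Metric.sphere (0 : E) 1
noncomputable abbrev sm : Measure S := (volume : Measure E).toSphere

theorem box (Q : Matrix (Fin 3) (Fin 3) ℝ) (hQ : |Q.det| = 1) (c r : Fin 3 → ℝ) (hr : ∀ i, 0 ≤ r i) :
    volume {y : E | ∀ i, |(Q *ᵥ y.ofLp) i - c i| ≤ r i} = ENNReal.ofReal (8 * (r 0 * r 1 * r 2)) := by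
  have e : {y : E | ∀ i, |(Q *ᵥ y.ofLp) i - c i| ≤ r i} =
      WithLp.ofLp ⁻¹' (Matrix.toLin' Q ⁻¹' Icc (c - r) (c + r)) := by
    ext y
    simp only [mem_ofPred_eq, mem_preimage, toLin'_apply, mem_Icc, Pi.le_def, Pi.sub_apply,
      Pi.add_apply, abs_le, ← forall_and]
    exact forall_congr' fun i => by constructor <;> rintro ⟨a, b⟩ <;> constructor <;> linarith
  have hd : LinearMap.det (Matrix.toLin' Q) ≠ 0 := by
    rw [LinearMap.det_toLin']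
    intro h
    simp [h] at hQ
  rw [e, (PiLp.volume_preserving_ofLp (Fin 3)).measure_preimage
    ((measurableSet_Icc.preimage (Matrix.toLin' Q).continuous_of_finiteDimensional.measurable).nullMeasurableSet),
    Measure.addHaar_preimage_linearMap _ hd, LinearMap.det_toLin', abs_inv, hQ, Real.volume_Icc_pi,
    Fin.prod_univ_three, ← ENNReal.ofReal_mul, ← ENNReal.ofReal_mul]
  · simp only [inv_one, ENNReal.ofReal_one, one_mul, Pi.add_apply, Pi.sub_apply]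
    congr 1
    ring
  · simp only [Pi.add_apply, Pi.sub_apply]
    nlinarith [mul_nonneg (hr 0) (hr 1)]
  · simp only [Pi.add_apply, Pi.sub_apply]
    linarith [hr 0]

theorem sm_apply (T : Set S) (hT : MeasurableSet T) :
    sm T = 3 * volume (Ioo (0 : ℝ) 1 • ((↑) '' T : Set E)) := by
  rw [Measure.toSphere_apply' _ hT]
  simp

theorem up (Q : Matrix (Fin 3) (Fin 3) ℝ) (hQ : |Q.det| = 1) (r : Fin 3 → ℝ) (hr : ∀ i, 0 ≤ r i)
    (T : Set S) (hT : MeasurableSet T) (h : ∀ x ∈ T, ∀ i, |(Q *ᵥ x.1.ofLp) i| ≤ r i) :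
    sm.real T ≤ 24 * (r 0 * r 1 * r 2) := by
  have p : 0 ≤ r 0 * r 1 * r 2 := mul_nonneg (mul_nonneg (hr 0) (hr 1)) (hr 2)
  refine ENNReal.toReal_le_of_le_ofReal (by positivity) ?_
  rw [sm_apply T hT, show 24 * (r 0 * r 1 * r 2) = 3 * (8 * (r 0 * r 1 * r 2)) by ring,
    ENNReal.ofReal_mul (by norm_num), ← box Q hQ 0 r hr, ENNReal.ofReal_ofNat]
  gcongr
  rintro _ ⟨t, ht, _, ⟨x, hx, rfl⟩, rfl⟩ i
  simp only [WithLp.ofLp_smul, mulVec_smul, Pi.smul_apply, smul_eq_mul, Pi.zero_apply, sub_zero,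
    abs_mul, abs_of_pos ht.1]
  exact (mul_le_of_le_one_left (abs_nonneg _) ht.2.le).trans (h x hx i)

theorem low (Q : Matrix (Fin 3) (Fin 3) ℝ) (hQ : |Q.det| = 1) (c r : Fin 3 → ℝ) (hr : ∀ i, 0 ≤ r i)
    (T : Set S) (hT : MeasurableSet T) (h : ∀ y : E, (∀ i, |(Q *ᵥ y.ofLp) i - c i| ≤ r i) →
      1 / 2 ≤ ‖y‖ ∧ ‖y‖ < 1 ∧ ∀ x : S, y = ‖y‖ • x.1 → x ∈ T) :
    24 * (r 0 * r 1 * r 2) ≤ sm.real T := by
  refine (ENNReal.ofReal_le_iff_le_toReal (measure_ne_top _ _)).1 ?_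
  rw [sm_apply T hT, show 24 * (r 0 * r 1 * r 2) = 3 * (8 * (r 0 * r 1 * r 2)) by ring,
    ENNReal.ofReal_mul (by norm_num), ← box Q hQ c r hr, ENNReal.ofReal_ofNat]
  gcongr
  intro y hy
  obtain ⟨a, b, c⟩ := h y hy
  have p : 0 < ‖y‖ := by linarith
  have e : y = ‖y‖ • ‖y‖⁻¹ • y := by rw [smul_smul, mul_inv_cancel₀ p.ne', one_smul]
  have n : ‖y‖⁻¹ • y ∈ Metric.sphere (0 : E) 1 := by
    rw [mem_sphere_zero_iff_norm, norm_smul, norm_inv, norm_norm, inv_mul_cancel₀ p.ne']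
  exact ⟨‖y‖, ⟨p, b⟩, _, ⟨⟨_, n⟩, c _ e, rfl⟩, e.symm⟩

theorem nsq (x : E) : ‖x‖ ^ 2 = x 0 ^ 2 + x 1 ^ 2 + x 2 ^ 2 := by
  rw [EuclideanSpace.real_norm_sq_eq, Fin.sum_univ_three]

theorem sph (x : S) : x.1 0 ^ 2 + x.1 1 ^ 2 + x.1 2 ^ 2 = 1 := by
  rw [← nsq, mem_sphere_zero_iff_norm.1 x.2, one_pow]

theorem inn (x y : E) : ⟪x, y⟫ = x 0 * y 0 + x 1 * y 1 + x 2 * y 2 := by
  simp only [PiLp.inner_apply, Fin.sum_univ_three, RCLike.inner_apply, conj_trivial]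
  ring

def sg (a b : ℝ) (x : S) : ℝ := a * x.1 0 - x.1 1 - b * x.1 2

theorem co (i : Fin 3) : Continuous fun x : S => x.1 i := by fun_prop

theorem sg_cont (a b : ℝ) : Continuous (sg a b) := by unfold sg; fun_prop

def Bx (a b t w w' : ℝ) : Set S := {x | |sg a b x| ≤ w ∧ |x.1 0 - t * x.1 2| ≤ w'}

theorem Bx_meas (a b t w w' : ℝ) : MeasurableSet (Bx a b t w w') :=
  ((isClosed_le (sg_cont a b).abs continuous_const).inter
    (isClosed_le ((co 0).sub ((co 2).const_mul t)).abs continuous_const)).measurableSet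

theorem c_le (x : S) (i : Fin 3) : |x.1 i| ≤ 1 := by
  have := sph x
  refine abs_le_one_iff_mul_self_le_one.2 ?_
  fin_cases i <;> simp <;> nlinarith [sq_nonneg (x.1 0), sq_nonneg (x.1 1), sq_nonneg (x.1 2)]

theorem Bx_le (a b t w w' : ℝ) (hw : 0 ≤ w) (hw' : 0 ≤ w') :
    sm.real (Bx a b t w w') ≤ 24 * (w * w') := by
  refine (up !![1, 0, -t; a, -1, -b; 0, 0, 1] (by simp [det_fin_three]) ![w', w, 1]
    (fun i => by fin_cases i <;> simp [hw, hw']) _ (Bx_meas _ _ _ _ _) fun x hx i => ?_).trans_eq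
    (by simp [mul_comm])
  have := c_le x 2
  obtain ⟨h1, h2⟩ := hx
  rw [sg] at h1
  fin_cases i <;> simp [mulVec, dotProduct, Fin.sum_univ_three] <;> simpa [sub_eq_add_neg]

theorem univ_le : sm.real univ ≤ 24 := by
  refine (up 1 (by simp) ![1, 1, 1] (fun i => by fin_cases i <;> simp) _ .univ
    fun x _ i => ?_).trans_eq (by simp)
  rw [one_mulVec]
  exact (c_le x i).trans_eq (by fin_cases i <;> simp)

def U (a b δ : ℝ) : Set S := {x | 0 ≤ x.1 2 ∧ 2 / 5 ≤ x.1 0 - x.1 2 ∧ |sg a b x| ≤ δ / 2}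

theorem U_meas (a b δ : ℝ) : MeasurableSet (U a b δ) :=
  ((isClosed_le continuous_const (co 2)).inter ((isClosed_le continuous_const ((co 0).sub (co 2))).inter
    (isClosed_le (sg_cont a b).abs continuous_const))).measurableSet

theorem U_ge (a b δ : ℝ) (ha : a ∈ Icc (0 : ℝ) 1) (hb : b ∈ Icc (0 : ℝ) 1) (h0 : 0 ≤ δ)
    (h1 : δ ≤ 1 / 5) : 3 / 200 * δ ≤ sm.real (U a b δ) := by
  refine le_trans (le_of_eq (by simp; ring)) (low !![1, 0, 0; a, -1, -b; 0, 0, 1]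
    (by simp [det_fin_three]) ![11 / 20, 0, 1 / 20] ![1 / 20, δ / 4, 1 / 20]
    (fun i => by fin_cases i <;> simp; positivity) _ (U_meas _ _ _) fun y hy => ?_)
  have y0 := hy 0
  have y1 := hy 1
  have y2 := hy 2
  simp [mulVec, dotProduct, Fin.sum_univ_three] at y0 y1 y2
  rw [abs_le] at y0 y2
  have y1' := abs_le.1 y1
  have n := nsq y
  have p1 : 0 ≤ a * y 0 ∧ a * y 0 ≤ 3 / 5 := ⟨mul_nonneg ha.1 (by linarith), by nlinarith [ha.1, ha.2]⟩
  have p2 : 0 ≤ b * y 2 ∧ b * y 2 ≤ 1 / 10 := ⟨mul_nonneg hb.1 (by linarith), by nlinarith [hb.1, hb.2]⟩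
  have q : y 1 ^ 2 ≤ (13 / 20) ^ 2 := sq_le_sq' (by linarith) (by linarith)
  have l : 1 / 2 ≤ ‖y‖ := abs_le_abs (a := 1 / 2) ?_ ?_ |>.trans_eq' (by norm_num) |>.trans_eq
    (abs_norm y)
  · have u : ‖y‖ < 1 := by nlinarith [norm_nonneg y]
    refine ⟨l, u, fun x hx => ?_⟩
    have c : ∀ i, y i = ‖y‖ * x.1 i := fun i => by conv_lhs => rw [hx]; simp
    obtain ⟨ρ, hρ⟩ : ∃ ρ, ρ = ‖y‖ := ⟨_, rfl⟩
    rw [← hρ] at c l u
    rw [c, c, c] at y1
    rw [c] at y0 y2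
    have x2 : 0 ≤ x.1 2 := by nlinarith
    refine ⟨x2, by nlinarith, ?_⟩
    have : a * (ρ * x.1 0) + -(ρ * x.1 1) + -(b * (ρ * x.1 2)) = ρ * sg a b x := by rw [sg]; ring
    rw [this, abs_mul, abs_of_pos (by linarith : 0 < ρ)] at y1
    nlinarith [abs_nonneg (sg a b x)]
  · nlinarith [norm_nonneg y, sq_nonneg (y 1), sq_nonneg (y 2)]
  · linarith [norm_nonneg y]

def A : Set S := {x | (0 ≤ x.1 0 ∧ x.1 0 ≤ x.1 2 / 2) ∨ 9 / 10 ≤ x.1 1}

theorem A_meas : MeasurableSet A :=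
  (((isClosed_le continuous_const (co 0)).inter (isClosed_le (co 0) ((co 2).div_const 2))).union
    (isClosed_le continuous_const (co 1))).measurableSet

theorem exists_y (n : E) : ∃ y : E, ‖y‖ = 1 ∧ ⟪n, y⟫ = 0 ∧ y 0 = y 2 / 4 ∧
    (19 / 20 ≤ y 1 ∨ 3 / 10 ≤ y 2) := by
  obtain ⟨z, hz, z0⟩ := (Submodule.ne_bot_iff _).1 (LinearMap.ker_ne_bot_of_finrank_lt
    (f := (innerₛₗ ℝ n).prod (innerₛₗ ℝ (WithLp.toLp 2 ![1, 0, -1 / 4] : E))) (by simp))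
  replace hz : ⟪n, z⟫ = 0 ∧ ⟪(WithLp.toLp 2 ![1, 0, -1 / 4] : E), z⟫ = 0 :=
    Prod.mk_eq_zero.1 (LinearMap.mem_ker.1 hz)
  have p : 0 < ‖z‖ := norm_pos_iff.2 z0
  obtain ⟨y, hy⟩ : ∃ y, y = ‖z‖⁻¹ • z := ⟨_, rfl⟩
  have y1 : ‖y‖ = 1 := by rw [hy, norm_smul, norm_inv, norm_norm, inv_mul_cancel₀ p.ne']
  have y2 : ⟪n, y⟫ = 0 := by rw [hy, inner_smul_right, hz.1, mul_zero]
  have y3 : y 0 = y 2 / 4 := by
    have : ⟪(WithLp.toLp 2 ![1, 0, -1 / 4] : E), y⟫ = 0 := by rw [hy, inner_smul_right, hz.2, mul_zero]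
    rw [inn] at this
    simp at this
    linarith
  have n1 := nsq y
  rw [y1] at n1
  by_cases h : 19 / 20 ≤ y 1 ∨ 3 / 10 ≤ y 2
  · exact ⟨y, y1, y2, y3, h⟩
  refine ⟨-y, by simpa using y1, by simpa using y2, by simp [y3, neg_div], ?_⟩
  by_contra k
  simp only [not_or, not_le, PiLp.neg_apply] at h k
  rw [y3] at n1
  nlinarith

theorem frame (n y : E) (hn : ‖n‖ = 1) (hy : ‖y‖ = 1) (h : ⟪n, y⟫ = 0) :
    ∃ b : OrthonormalBasis (Fin 3) ℝ E, b 0 = y ∧ b 2 = n := by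
  obtain ⟨b, hb⟩ := Orthonormal.exists_orthonormalBasis_extension_of_card_eq (𝕜 := ℝ) (E := E)
    (ι := Fin 3) (by simp) (v := ![y, 0, n]) (s := {0, 2}) (by
      refine ⟨?_, ?_⟩
      · rintro ⟨i, rfl | rfl⟩ <;> simpa
      · rintro ⟨i, rfl | rfl⟩ ⟨j, rfl | rfl⟩ hij
        · exact absurd rfl hij
        · simpa [real_inner_comm] using h
        · simpa using h
        · exact absurd rfl hij)
  exact ⟨b, hb 0 (by simp), hb 2 (by simp)⟩

theorem frame_det (b : OrthonormalBasis (Fin 3) ℝ E) :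
    |(Matrix.of fun i j => b i j).det| = 1 := by
  have : (Matrix.of fun i j => b i j) * (Matrix.of fun i j => b i j)ᵀ = 1 := by
    ext i j
    have := orthonormal_iff_ite.1 b.orthonormal i j
    rw [inn] at this
    simp only [Matrix.mul_apply, of_apply, transpose_apply, Fin.sum_univ_three, Matrix.one_apply, this]
  have := congrArg det this
  rw [det_mul, det_transpose, det_one] at this
  exact abs_eq_abs.2 (mul_self_eq_mul_self_iff.1 (this.trans (mul_one 1).symm)) |>.trans abs_one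

theorem frame_mul (b : OrthonormalBasis (Fin 3) ℝ E) (y : E) (i : Fin 3) :
    ((Matrix.of fun i j => b i j) *ᵥ y.ofLp) i = ⟪b i, y⟫ := by
  simp [mulVec, dotProduct, Fin.sum_univ_three, inn]

end Pool.Agent.H.MP_af75b4_an
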