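import Pool.Agent.H.MP_af75b4_an.A

set_option autoImplicit false

namespace Pool.Agent.H.MP_af75b4_an

open MeasureTheory Set Matrix InnerProductGeometry
open scoped RealInnerProductSpace

theorem tube_le (n : S) (R : ℝ) (hR : 0 ≤ R) :
    sm.real {x : S | ∃ y : S, ⟪n.1, y.1⟫ = 0 ∧ angle x.1 y.1 < R} ≤ 24 * R := by
  have hn := mem_sphere_zero_iff_norm.1 n.2
  obtain ⟨y, y1, y2, -⟩ := exists_y n.1
  obtain ⟨b, -, b2⟩ := frame n.1 y hn y1 y2
  refine (measureReal_mono (s₂ := {x : S | |⟪n.1, x.1⟫| ≤ R}) ?_).trans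
    ((up _ (frame_det b) ![1, 1, R] (fun i => by fin_cases i <;> simp [hR]) _
      (isClosed_le (by fun_prop) continuous_const).measurableSet fun x hx i => ?_).trans_eq (by simp))
  · rintro x ⟨z, z1, z2⟩
    have hx := mem_sphere_zero_iff_norm.1 x.2
    have hz := mem_sphere_zero_iff_norm.1 z.2
    have a := abs_real_inner_le_norm n.1 (x.1 - z.1)
    rw [inner_sub_right, z1, sub_zero, hn, one_mul] at a
    have c := cos_angle x.1 z.1
    rw [hx, hz, mul_one, div_one] at c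
    have d := norm_sub_sq_real x.1 z.1
    have e := Real.one_sub_sq_div_two_le_cos (x := angle x.1 z.1)
    have f := angle_nonneg x.1 z.1
    rw [hx, hz] at d
    exact a.trans (abs_le_of_sq_le_sq' (a := ‖x.1 - z.1‖) (by nlinarith) hR).2
  · rw [frame_mul]
    have := abs_real_inner_le_norm (b i) x.1
    rw [b.orthonormal.1, mem_sphere_zero_iff_norm.1 x.2, mul_one] at this
    fin_cases i
    exacts [this, this, by simpa [b2] using hx]

theorem in_tube (n x : S) (R : ℝ) (h0 : 0 < R) (h1 : R ≤ 1) (h : |⟪n.1, x.1⟫| ≤ R / 4) :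
    ∃ y : S, ⟪n.1, y.1⟫ = 0 ∧ angle x.1 y.1 < R := by
  have hn := mem_sphere_zero_iff_norm.1 n.2
  have hx := mem_sphere_zero_iff_norm.1 x.2
  obtain ⟨s, hs⟩ : ∃ s, s = ⟪n.1, x.1⟫ := ⟨_, rfl⟩
  obtain ⟨z, hz⟩ : ∃ z, z = x.1 - s • n.1 := ⟨_, rfl⟩
  rw [← hs] at h
  have s2 : s ^ 2 ≤ (R / 4) ^ 2 := sq_le_sq' (abs_le.1 h).1 (abs_le.1 h).2
  have z1 : ⟪n.1, z⟫ = 0 := by
    rw [hz, inner_sub_right, inner_smul_right, real_inner_self_eq_norm_sq, hn, ← hs]; ring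
  have z2 : ⟪x.1, z⟫ = 1 - s ^ 2 := by
    rw [hz, inner_sub_right, inner_smul_right, real_inner_self_eq_norm_sq, hx, real_inner_comm, ← hs]
    ring
  have z3 : ‖z‖ ^ 2 = 1 - s ^ 2 := by
    rw [← real_inner_self_eq_norm_sq]
    conv_lhs => rw [hz, inner_sub_left, ← hz, inner_smul_left, z1, z2]
    simp
  have p : 0 < ‖z‖ := by
    by_contra k
    have : ‖z‖ = 0 := le_antisymm (not_lt.1 k) (norm_nonneg z)
    rw [this] at z3
    nlinarith
  refine ⟨⟨‖z‖⁻¹ • z, by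
    rw [mem_sphere_zero_iff_norm, norm_smul, norm_inv, norm_norm, inv_mul_cancel₀ p.ne']⟩,
    by rw [inner_smul_right, z1, mul_zero], ?_⟩
  rw [angle_smul_right_of_pos _ _ (inv_pos.2 p)]
  by_contra k
  have a := Real.cos_le_cos_of_nonneg_of_le_pi h0.le (angle_le_pi _ _) (not_lt.1 k)
  have pi := Real.pi_gt_three
  have b := Real.cos_le_one_sub_mul_cos_sq (x := R) (by rw [abs_of_pos h0]; linarith)
  rw [cos_angle, hx, one_mul, z2, ← z3, sq, mul_div_assoc, div_self p.ne', mul_one] at a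
  have c : 1 / 8 ≤ 2 / Real.pi ^ 2 := by
    rw [div_le_div_iff₀ (by norm_num) (by positivity)]
    nlinarith [Real.pi_le_four]
  have d : ‖z‖ ≤ 1 := by nlinarith
  nlinarith [mul_le_mul_of_nonneg_right c (sq_nonneg R), mul_pos h0 h0]

theorem tube_ge (n : S) (R : ℝ) (h0 : 0 < R) (h1 : R ≤ 1 / 25) :
    3 / 4000 * R ≤ sm.real (A ∩ {x : S | ∃ y : S, ⟪n.1, y.1⟫ = 0 ∧ angle x.1 y.1 < R}) := by
  have hn := mem_sphere_zero_iff_norm.1 n.2
  obtain ⟨y, y1, y2, y3, y4⟩ := exists_y n.1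
  obtain ⟨b, b0, b2⟩ := frame n.1 y hn y1 y2
  refine le_trans ?_ (measureReal_mono
    (s₁ := {x : S | 1 - 1 / 800 ≤ ⟪y, x.1⟫ ∧ |⟪n.1, x.1⟫| ≤ R / 4}) ?_)
  · refine le_trans (le_of_eq (by simp; ring)) (low _ (frame_det b) ![11 / 20, 0, 0]
      ![1 / 20, 1 / 200, R / 8] (fun i => by fin_cases i <;> simp; positivity) _
      ((isClosed_le (g := fun x : S => ⟪y, x.1⟫) continuous_const (by fun_prop)).inter
        (isClosed_le (f := fun x : S => |⟪n.1, x.1⟫|) (by fun_prop)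
          continuous_const)).measurableSet fun z hz => ?_)
    have z0 := hz 0
    have z1 := hz 1
    have z2 := hz 2
    have e := b.sum_sq_inner_right z
    rw [Fin.sum_univ_three, b0, b2] at e
    rw [frame_mul] at z0 z1 z2
    simp [b0, b2] at z0 z1 z2
    have q1 : ⟪b 1, z⟫ ^ 2 ≤ (1 / 200) ^ 2 := sq_le_sq' (by linarith [(abs_le.1 z1).1])
      (by linarith [(abs_le.1 z1).2])
    have q2 : ⟪n.1, z⟫ ^ 2 ≤ (1 / 200) ^ 2 := sq_le_sq' (by linarith [(abs_le.1 z2).1])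
      (by linarith [(abs_le.1 z2).2])
    rw [abs_le] at z0
    have p := norm_nonneg z
    have l0 : ⟪y, z⟫ ≤ ‖z‖ := by simpa [y1] using real_inner_le_norm y z
    have u : ‖z‖ < 1 := by nlinarith
    refine ⟨by linarith, u, fun x hx => ?_⟩
    obtain ⟨ρ, hρ⟩ : ∃ ρ, ρ = ‖z‖ := ⟨_, rfl⟩
    rw [← hρ] at hx e l0 u p
    have c0 : ⟪y, z⟫ = ρ * ⟪y, x.1⟫ := by rw [hx, inner_smul_right]
    have c2 : ⟪n.1, z⟫ = ρ * ⟪n.1, x.1⟫ := by rw [hx, inner_smul_right]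
    have r : ρ - ⟪y, z⟫ ≤ 1 / 20000 := by nlinarith
    refine ⟨by nlinarith, ?_⟩
    rw [c2, abs_mul, abs_of_nonneg p] at z2
    nlinarith [abs_nonneg ⟪n.1, x.1⟫]
  · rintro x ⟨a, c⟩
    refine ⟨?_, in_tube n x R h0 (by linarith) c⟩
    have d := norm_sub_sq_real y x.1
    rw [nsq, y1, mem_sphere_zero_iff_norm.1 x.2] at d
    simp only [PiLp.sub_apply] at d
    have k0 : |y 0 - x.1 0| ≤ 1 / 20 := abs_le_of_sq_le_sq' (by
      nlinarith [sq_nonneg (y 1 - x.1 1), sq_nonneg (y 2 - x.1 2)]) (by norm_num) |> abs_le.2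
    have k1 : |y 1 - x.1 1| ≤ 1 / 20 := abs_le_of_sq_le_sq' (by
      nlinarith [sq_nonneg (y 0 - x.1 0), sq_nonneg (y 2 - x.1 2)]) (by norm_num) |> abs_le.2
    have k2 : |y 2 - x.1 2| ≤ 1 / 20 := abs_le_of_sq_le_sq' (by
      nlinarith [sq_nonneg (y 1 - x.1 1), sq_nonneg (y 0 - x.1 0)]) (by norm_num) |> abs_le.2
    rw [abs_le] at k0 k1 k2
    obtain h | h := y4
    · exact Or.inr (by linarith)
    · exact Or.inl ⟨by linarith, by linarith⟩

open MvPolynomial in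
theorem beam (a b : ℝ) (ha : a ∈ Icc (0 : ℝ) 1) (hb : b ∈ Icc (0 : ℝ) 1) (k : ℕ) :
    ∃ P : MvPolynomial (Fin 3) ℂ, P.IsHomogeneous k ∧ ∑ i, pderiv i (pderiv i P) = 0 ∧ ∀ x : S,
      ‖eval (fun i => (x.1 i : ℂ)) P‖ ^ 2 ≤ Real.exp (-(k * sg a b x ^ 2 / 3)) ∧
      1 - k * sg a b x ^ 2 ≤ ‖eval (fun i => (x.1 i : ℂ)) P‖ ^ 2 := by
  obtain ⟨ν, hν⟩ : ∃ ν : E, ν = WithLp.toLp 2 ![a, -1, -b] := ⟨_, rfl⟩
  have n2 : ‖ν‖ ^ 2 = a ^ 2 + 1 + b ^ 2 := by rw [nsq, hν]; simp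
  have p : 0 < ‖ν‖ := by
    by_contra k
    rw [le_antisymm (not_lt.1 k) (norm_nonneg ν)] at n2
    nlinarith
  obtain ⟨y, y1, y2, -⟩ := exists_y (‖ν‖⁻¹ • ν)
  obtain ⟨f, -, f2⟩ := frame _ y
    (by rw [norm_smul, norm_inv, norm_norm, inv_mul_cancel₀ p.ne']) y1 y2
  obtain ⟨c, hc⟩ : ∃ c : Fin 3 → ℂ, c = fun i => (f 0 i : ℂ) + f 1 i * Complex.I := ⟨_, rfl⟩
  obtain ⟨L, hL⟩ : ∃ L : MvPolynomial (Fin 3) ℂ, L = ∑ i, C (c i) * X i := ⟨_, rfl⟩
  have dL : ∀ i, pderiv i L = C (c i) := fun i => by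
    rw [hL]; fin_cases i <;> simp [Fin.sum_univ_three]
  have c0 : ∑ i, c i * c i = 0 := by
    have o := fun i j => (inn (f i) (f j)).symm.trans (orthonormal_iff_ite.1 f.orthonormal i j)
    have o1 := o 0 0
    have o2 := o 1 1
    have o3 := o 0 1
    simp only [if_true, Fin.zero_eq_one_iff, OfNat.ofNat_ne_one, if_false] at o1 o2 o3
    rw [hc, Fin.sum_univ_three]
    apply Complex.ext <;> simp <;> linarith
  refine ⟨L ^ k, ?_, ?_, fun x => ?_⟩
  · have : L.IsHomogeneous 1 := by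
      rw [hL]; exact IsHomogeneous.sum _ _ _ fun i _ => isHomogeneous_C_mul_X _ _
    simpa using this.pow k
  · have : ∀ i, pderiv i (pderiv i (L ^ k)) = 
        ((k : MvPolynomial (Fin 3) ℂ) * ((k - 1 : ℕ) : MvPolynomial (Fin 3) ℂ) * L ^ (k - 1 - 1)) *
          C (c i * c i) :=
      fun i => by
        simp only [Derivation.leibniz_pow, dL, smul_eq_mul, Derivation.leibniz,
          pderiv_C, nsmul_eq_mul, map_mul, Derivation.map_natCast]
        ring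
    simp only [this]
    rw [← Finset.mul_sum, ← map_sum, c0, map_zero, mul_zero]
  · have e := f.sum_sq_inner_right x.1
    rw [Fin.sum_univ_three, f2, mem_sphere_zero_iff_norm.1 x.2, inner_smul_left] at e
    have s : ⟪ν, x.1⟫ = sg a b x := by rw [inn, hν, sg]; simp; ring
    have v : ‖eval (fun i => (x.1 i : ℂ)) L‖ ^ 2 = 1 - sg a b x ^ 2 / (a ^ 2 + 1 + b ^ 2) := by
      have : eval (fun i => (x.1 i : ℂ)) L = (⟪f 0, x.1⟫ : ℝ) + (⟪f 1, x.1⟫ : ℝ) * Complex.I := by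
        simp only [hL, hc, Fin.sum_univ_three, map_add, map_mul, eval_C, eval_X, inn]
        push_cast
        ring
      rw [this, Complex.sq_norm, Complex.normSq_add_mul_I, ← n2, ← s]
      simp only [conj_trivial] at e
      rw [← div_pow, div_eq_inv_mul]
      linarith
    rw [map_pow, norm_pow, ← pow_mul, mul_comm k 2, pow_mul]
    have v0 := sq_nonneg ‖eval (fun i => (x.1 i : ℂ)) L‖
    rw [v] at v0 ⊢
    obtain ⟨t, ht⟩ : ∃ t, t = sg a b x ^ 2 / (a ^ 2 + 1 + b ^ 2) := ⟨_, rfl⟩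
    have t1 : t ≤ sg a b x ^ 2 := ht ▸ div_le_self (sq_nonneg _) (by nlinarith)
    have t2 : sg a b x ^ 2 / 3 ≤ t := ht ▸ div_le_div_of_nonneg_left (sq_nonneg _) (by positivity)
      (by nlinarith [ha.1, ha.2, hb.1, hb.2])
    rw [← ht] at v0 ⊢
    have k0 : (0 : ℝ) ≤ k := k.cast_nonneg
    constructor
    · refine (pow_le_pow_left₀ v0 (Real.one_sub_le_exp_neg t) k).trans ?_
      rw [← Real.exp_nat_mul, Real.exp_le_exp]
      nlinarith
    · have := one_add_mul_le_pow (a := -t) (by linarith) k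
      rw [← sub_eq_add_neg] at this
      nlinarith

end Pool.Agent.H.MP_af75b4_an
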