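import Pool.Agent.H.MP_af75b4_an.B

set_option autoImplicit false

namespace Pool.Agent.H.MP_af75b4_an

open MeasureTheory Finset

theorem gsum (M : ℕ) : ∑ m ∈ range M, ((m : ℝ) + 1) * (1 / 2) ^ m ≤ 4 := by
  have : ∑ m ∈ range M, ((m : ℝ) + 1) * (1 / 2) ^ m = 4 - (2 * M + 4) * (1 / 2) ^ M := by
    induction M with
    | zero => simp
    | succ M ih => rw [sum_range_succ, ih]; push_cast; ring
  rw [this]
  exact sub_le_self _ (by positivity)

theorem geo (i n : ℕ) (h : i ≤ n) : ∑ l ∈ Ico i n, (1 / 2 : ℝ) ^ (l + 1) = (1 / 2) ^ i - (1 / 2) ^ n := by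
  induction n, h using Nat.le_induction with
  | base => simp
  | succ n h ih => rw [sum_Ico_succ_top h, ih]; ring

noncomputable def al (P : Finset ℕ) : ℝ := ∑ l ∈ P, (1 / 2) ^ (l + 1)
noncomputable def be (n : ℕ) (P : Finset ℕ) : ℝ := ∑ l ∈ P, (1 / 2) ^ (l + 1) * ((l : ℝ) / n)

theorem al_mem (n : ℕ) (P : Finset ℕ) (h : P ⊆ range n) : al P ∈ Set.Icc (0 : ℝ) 1 := by
  refine ⟨sum_nonneg fun _ _ => by positivity, (sum_le_sum_of_subset_of_nonneg h
    fun _ _ _ => by positivity).trans ?_⟩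
  rw [range_eq_Ico, geo 0 n n.zero_le, pow_zero]
  exact sub_le_self _ (by positivity)

theorem be_mem (n : ℕ) (P : Finset ℕ) (h : P ⊆ range n) : be n P ∈ Set.Icc (0 : ℝ) 1 := by
  refine ⟨sum_nonneg fun _ _ => by positivity, le_trans (sum_le_sum fun l hl => ?_) (al_mem n P h).2⟩
  refine mul_le_of_le_one_right (by positivity) (div_le_one_of_le₀ ?_ n.cast_nonneg)
  exact_mod_cast (mem_range.1 (h hl)).le

theorem sg_eq (n : ℕ) (P : Finset ℕ) (x : S) : sg (al P) (be n P) x =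
    ∑ l ∈ P, (1 / 2) ^ (l + 1) * (x.1 0 - (l : ℝ) / n * x.1 2) - x.1 1 := by
  simp only [sg, al, be, sum_mul, mul_sub, sum_sub_distrib, mul_assoc]
  ring

theorem sep (n : ℕ) (c : ℕ → ℝ) (c0 : ℝ) (h0 : 0 ≤ c0) (h1 : ∀ l < n, c0 ≤ c l) (h2 : Antitone c)
    (P Q : Finset ℕ) (hP : P ⊆ range n) (hQ : Q ⊆ range n) (h : P ≠ Q) :
    (1 / 2) ^ n * c0 ≤ |∑ l ∈ P, (1 / 2) ^ (l + 1) * c l - ∑ l ∈ Q, (1 / 2) ^ (l + 1) * c l| := by
  have key : ∀ P Q : Finset ℕ, P ⊆ range n → Q ⊆ range n → ∀ a ∈ P, a ∉ Q →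
      (∀ l ∈ Q, l ∉ P → a ≤ l) →
      (1 / 2) ^ n * c0 ≤ ∑ l ∈ P, (1 / 2) ^ (l + 1) * c l - ∑ l ∈ Q, (1 / 2) ^ (l + 1) * c l := by
    intro P Q hP hQ a aP aQ hm
    have an := mem_range.1 (hP aP)
    have ca := h0.trans (h1 a an)
    rw [← sum_sdiff_sub_sum_sdiff]
    have b1 : (1 / 2) ^ (a + 1) * c a ≤ ∑ l ∈ P \ Q, (1 / 2 : ℝ) ^ (l + 1) * c l :=
      single_le_sum (f := fun l => (1 / 2 : ℝ) ^ (l + 1) * c l) (fun l hl => mul_nonneg (by positivity)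
        (h0.trans (h1 l (mem_range.1 (hP (mem_sdiff.1 hl).1))))) (mem_sdiff.2 ⟨aP, aQ⟩)
    have b2 : ∑ l ∈ Q \ P, (1 / 2 : ℝ) ^ (l + 1) * c l ≤ ∑ l ∈ Ico (a + 1) n, (1 / 2) ^ (l + 1) * c a := by
      refine le_trans (sum_le_sum fun l hl => mul_le_mul_of_nonneg_left
        (h2 (hm l (mem_sdiff.1 hl).1 (mem_sdiff.1 hl).2)) (by positivity))
        (sum_le_sum_of_subset_of_nonneg (fun l hl => ?_) fun _ _ _ => by positivity)
      obtain ⟨l1, l2⟩ := mem_sdiff.1 hl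
      have := hm l l1 l2
      have : a ≠ l := fun e => aQ (e ▸ l1)
      exact mem_Ico.2 ⟨by omega, mem_range.1 (hQ l1)⟩
    rw [← sum_mul, geo (a + 1) n an] at b2
    have := mul_le_mul_of_nonneg_left (h1 a an) (by positivity : (0 : ℝ) ≤ (1 / 2) ^ n)
    linarith
  have ne : (symmDiff P Q).Nonempty := symmDiff_nonempty.2 h
  have m := min'_mem _ ne
  have mm := fun l hl => min'_le (symmDiff P Q) l hl
  obtain ⟨a, b⟩ | ⟨a, b⟩ := mem_symmDiff.1 m
  · exact (key P Q hP hQ _ a b fun l x y => mm l (mem_symmDiff.2 (Or.inr ⟨x, y⟩))).trans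
      (le_abs_self _)
  · rw [abs_sub_comm]
    exact (key Q P hQ hP _ a b fun l x y => mm l (mem_symmDiff.2 (Or.inl ⟨x, y⟩))).trans
      (le_abs_self _)

theorem cover (q : ℕ) (hq : 0 < q) (P : Finset ℕ) (hP : P ⊆ range (2 * q)) (x : S) (w : ℝ)
    (h0 : 0 ≤ x.1 0) (h1 : x.1 0 ≤ x.1 2 / 2) (h : |sg (al P) (be (2 * q) P) x| ≤ w) :
    ∃ i ∈ range (q + 1), ∃ Q ∈ (range i).powerset, x ∈ Bx (al Q) (be (2 * q) Q)
      ((i : ℝ) / (2 * q : ℕ)) (w + (1 / 2) ^ i / q) (1 / (2 * q : ℕ)) := by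
  obtain ⟨n, hn⟩ : ∃ n, n = 2 * q := ⟨_, rfl⟩
  have nq : (n : ℝ) = 2 * q := by rw [hn]; push_cast; rfl
  have q0 : (0 : ℝ) < q := by exact_mod_cast hq
  have n0 : (0 : ℝ) < n := by linarith
  rw [← hn] at hP h ⊢
  obtain ⟨t, ht⟩ : ∃ t, t = x.1 0 / x.1 2 := ⟨_, rfl⟩
  have x2 : 0 ≤ x.1 2 := by linarith
  have x3 := (abs_le.1 (c_le x 2)).2
  have t0 : 0 ≤ t := ht ▸ div_nonneg h0 x2
  have t1 : t ≤ 1 / 2 := ht ▸ div_le_of_le_mul₀ x2 (by norm_num) (by linarith)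
  have t2 : x.1 0 = t * x.1 2 := by
    obtain z | z := x2.eq_or_lt
    · rw [← z] at h1 ⊢; linarith
    · rw [ht, div_mul_cancel₀ _ z.ne']
  obtain ⟨i, hi⟩ : ∃ i, i = ⌊n * t⌋₊ := ⟨_, rfl⟩
  have i1 : (i : ℝ) ≤ n * t := hi ▸ Nat.floor_le (by positivity)
  have i2 : n * t < i + 1 := hi ▸ Nat.lt_floor_add_one _
  have iq : i ≤ q := by exact_mod_cast (by nlinarith : (i : ℝ) ≤ q)
  have d : ∀ m : ℕ, |x.1 0 - ((i + m : ℕ) : ℝ) / n * x.1 2| ≤ (m + 1) / n := fun m => by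
    have : x.1 0 - ((i + m : ℕ) : ℝ) / n * x.1 2 = (n * t - i - m) / n * x.1 2 := by
      rw [t2]; push_cast; field_simp; ring
    rw [this, abs_mul, abs_of_nonneg x2, abs_div, abs_of_pos n0]
    refine (mul_le_of_le_one_right (by positivity) x3).trans (div_le_div_of_nonneg_right ?_ n0.le)
    have : (0 : ℝ) ≤ m := m.cast_nonneg
    exact abs_le.2 ⟨by linarith, by linarith⟩
  refine ⟨i, mem_range.2 (by omega), P.filter (· < i),
    mem_powerset.2 fun l hl => mem_range.2 (mem_filter.1 hl).2, ?_, by simpa using d 0⟩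
  rw [sg_eq, ← sum_filter_add_sum_filter_not P (· < i)] at h
  have b : |∑ l ∈ P.filter (fun l => ¬ l < i), (1 / 2 : ℝ) ^ (l + 1) * (x.1 0 - (l : ℝ) / n * x.1 2)|
      ≤ (1 / 2) ^ i / q := by
    refine (abs_sum_le_sum_abs _ _).trans ((sum_le_sum_of_subset_of_nonneg (t := Ico i n)
      (fun l hl => mem_Ico.2 ⟨not_lt.1 (mem_filter.1 hl).2, mem_range.1 (hP (mem_filter.1 hl).1)⟩)
      fun _ _ _ => abs_nonneg _).trans ?_)
    rw [sum_Ico_eq_sum_range]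
    refine (sum_le_sum (g := fun m : ℕ => (1 / 2) ^ i / (2 * n) * (((m : ℝ) + 1) * (1 / 2) ^ m))
      fun m _ => ?_).trans ?_
    · rw [abs_mul, abs_of_pos (by positivity)]
      refine (mul_le_mul_of_nonneg_left (d m) (by positivity)).trans_eq ?_
      rw [pow_succ, pow_add]
      field_simp
    · rw [← mul_sum]
      refine (mul_le_mul_of_nonneg_left (gsum _) (by positivity)).trans_eq ?_
      rw [nq]
      field_simp
      norm_num
  show |sg _ _ x| ≤ _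
  rw [sg_eq]
  rw [abs_le] at h b ⊢
  constructor <;> linarith [h.1, h.2, b.1, b.2]

theorem cint {f : S → ℝ} (hf : Continuous f) : Integrable f sm :=
  hf.integrable_of_hasCompactSupport (HasCompactSupport.of_compactSpace f)

theorem signs {ι : Type} (f : ι → S → ℂ) (hf : ∀ j, Continuous (f j)) (J : Finset ι) :
    ∃ ε : ι → ℂ, (∀ j, ‖ε j‖ = 1) ∧
      ∫ x, ‖∑ j ∈ J, ε j * f j x‖ ^ 2 ∂sm ≤ ∑ j ∈ J, ∫ x, ‖f j x‖ ^ 2 ∂sm := by
  classical
  induction J using Finset.induction_on with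
  | empty => exact ⟨fun _ => 1, by simp, by simp⟩
  | insert a J ha ih =>
    obtain ⟨ε, h1, h2⟩ := ih
    have cg : Continuous fun x => ∑ j ∈ J, ε j * f j x := by fun_prop
    have := hf a
    have key : ∫ x, ‖1 * f a x + ∑ j ∈ J, ε j * f j x‖ ^ 2 ∂sm +
        ∫ x, ‖-1 * f a x + ∑ j ∈ J, ε j * f j x‖ ^ 2 ∂sm =
        2 * (∫ x, ‖f a x‖ ^ 2 ∂sm + ∫ x, ‖∑ j ∈ J, ε j * f j x‖ ^ 2 ∂sm) := by
      rw [← integral_add (cint (by fun_prop)) (cint (by fun_prop)),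
        ← integral_add (cint (by fun_prop)) (cint (by fun_prop)), ← integral_const_mul]
      refine integral_congr_ae (.of_forall fun x => ?_)
      have := parallelogram_law_with_norm ℂ (∑ j ∈ J, ε j * f j x) (f a x)
      simp only [one_mul, neg_one_mul, add_comm (f a x), add_comm (-f a x), ← sub_eq_add_neg]
      linarith
    obtain ⟨s, s1, s2⟩ : ∃ s : ℂ, ‖s‖ = 1 ∧ ∫ x, ‖s * f a x + ∑ j ∈ J, ε j * f j x‖ ^ 2 ∂sm ≤
        ∫ x, ‖f a x‖ ^ 2 ∂sm + ∫ x, ‖∑ j ∈ J, ε j * f j x‖ ^ 2 ∂sm := by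
      by_contra k
      push Not at k
      linarith [k 1 (by simp), k (-1) (by simp)]
    refine ⟨Function.update ε a s, fun j => ?_, ?_⟩
    · by_cases h : j = a
      · rw [h, Function.update_self, s1]
      · rw [Function.update_of_ne h, h1]
    · have : ∀ x, ∑ j ∈ J, Function.update ε a s j * f j x = ∑ j ∈ J, ε j * f j x := fun x =>
        sum_congr rfl fun j hj => by rw [Function.update_of_ne (ne_of_mem_of_not_mem hj ha)]
      simp only [sum_insert ha, Function.update_self, this]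
      linarith

noncomputable def I (T : Set S) : S → ℝ := T.indicator fun _ => 1

theorem I_nonneg (T : Set S) (x : S) : 0 ≤ I T x := Set.indicator_nonneg (fun _ _ => one_pos.le) x

theorem I_one {T : Set S} {x : S} (h : x ∈ T) : I T x = 1 := Set.indicator_of_mem h _

theorem I_zero {T : Set S} {x : S} (h : x ∉ T) : I T x = 0 := Set.indicator_of_notMem h _

theorem I_int {T : Set S} (h : MeasurableSet T) : Integrable (I T) sm :=
  (integrable_const 1).indicator h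

theorem I_val {T : Set S} (h : MeasurableSet T) : ∫ x, I T x ∂sm = sm.real T :=
  integral_indicator_one h

theorem beam_int (a b : ℝ) (ha : a ∈ Set.Icc (0 : ℝ) 1) (hb : b ∈ Set.Icc (0 : ℝ) 1) (D : ℕ)
    (hD : 0 < D) (g : S → ℝ) (h0 : ∀ x, 0 ≤ g x)
    (h : ∀ x, g x ≤ Real.exp (-((D ^ 2 : ℕ) * sg a b x ^ 2 / 3))) : ∫ x, g x ∂sm ≤ 288 / D := by
  have D0 : (0 : ℝ) < D := by exact_mod_cast hD
  refine (integral_mono_of_nonneg (.of_forall h0) (g := fun x => ∑ l ∈ range (3 * D + 1),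
    3 * (1 / 2) ^ l * I (Bx a b 0 ((l + 1) / D) 1) x) (integrable_finsetSum _ fun l _ =>
      (I_int (Bx_meas _ _ _ _ _)).const_mul _) (.of_forall fun x => ?_)).trans ?_
  · obtain ⟨u, hu⟩ : ∃ u, u = |sg a b x| * D := ⟨_, rfl⟩
    have u0 : 0 ≤ u := by rw [hu]; positivity
    have u1 := Nat.floor_le u0
    have u2 := Nat.lt_floor_add_one u
    have s3 : |sg a b x| ≤ 3 := by
      have x0 := abs_le.1 (c_le x 0)
      have x1 := abs_le.1 (c_le x 1)
      have x2 := abs_le.1 (c_le x 2)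
      rw [sg, abs_le]
      constructor <;> nlinarith [ha.1, ha.2, hb.1, hb.2]
    have m : ⌊u⌋₊ ∈ range (3 * D + 1) := mem_range.2 (Nat.lt_succ_of_le (by
      exact_mod_cast (by nlinarith : (⌊u⌋₊ : ℝ) ≤ 3 * D)))
    refine le_trans ?_ (single_le_sum
      (f := fun l : ℕ => 3 * (1 / 2 : ℝ) ^ l * I (Bx a b 0 ((l + 1) / D) 1) x)
      (fun l _ => mul_nonneg (by positivity) (I_nonneg _ _)) m)
    have i : I (Bx a b 0 ((⌊u⌋₊ + 1) / D) 1) x = 1 :=
      I_one ⟨by rw [le_div_iff₀ D0]; linarith, by simpa using c_le x 0⟩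
    have e : ((D ^ 2 : ℕ) : ℝ) * sg a b x ^ 2 = u ^ 2 := by
      rw [hu, mul_pow, sq_abs]; push_cast; ring
    have e1 : Real.exp 1 ≤ 3 := by linarith [Real.exp_one_lt_d9]
    have e2 : Real.exp (-1) ≤ 1 / 2 := by linarith [Real.exp_neg_one_lt_d9]
    simp only [i, mul_one]
    refine (h x).trans (le_trans ?_ (mul_le_mul e1 (pow_le_pow_left₀ (Real.exp_pos _).le e2 _)
      (by positivity) (by norm_num)))
    rw [e, ← Real.exp_nat_mul, ← Real.exp_add, Real.exp_le_exp]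
    nlinarith [sq_nonneg (u - 3 / 2)]
  · rw [integral_finsetSum _ fun l _ => (I_int (Bx_meas _ _ _ _ _)).const_mul _]
    refine (sum_le_sum (g := fun l : ℕ => 72 / D * (((l : ℝ) + 1) * (1 / 2) ^ l)) fun l _ => ?_).trans ?_
    · rw [integral_const_mul, I_val (Bx_meas _ _ _ _ _)]
      refine (mul_le_mul_of_nonneg_left (Bx_le _ _ _ _ _ (by positivity) one_pos.le)
        (by positivity)).trans_eq (by ring)
    · rw [← mul_sum]
      exact (mul_le_mul_of_nonneg_left (gsum _) (by positivity)).trans_eq (by ring)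

end Pool.Agent.H.MP_af75b4_an
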