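import Pool.Agent.H.MP_af75b4_an.C

set_option autoImplicit false

namespace Pool.Agent.H.MP_af75b4_an

open MeasureTheory Finset

theorem young (p θ : ℝ) (h1 : 1 ≤ p) (h2 : p < 2) (hθ : 0 < θ) :
    ∃ Z : ℝ, 0 ≤ Z ∧ ∀ z : ℝ, 0 ≤ z → z ^ p ≤ θ * z ^ 2 + Z := by
  refine ⟨(θ⁻¹ ^ (2 - p)⁻¹) ^ p, by positivity, fun z hz => ?_⟩
  by_cases h : z ≤ θ⁻¹ ^ (2 - p)⁻¹
  · have := Real.rpow_le_rpow hz h (by linarith : 0 ≤ p)
    have : 0 ≤ θ * z ^ 2 := by positivity
    linarith
  · have z0 : 0 < z := lt_trans (by positivity) (not_le.1 h)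
    have a := Real.rpow_le_rpow (by positivity) (not_le.1 h).le (by linarith : 0 ≤ 2 - p)
    rw [Real.rpow_inv_rpow (by positivity) (by linarith), inv_le_iff_one_le_mul₀' hθ] at a
    have b : z ^ 2 = z ^ p * z ^ (2 - p) := by
      rw [← Real.rpow_add z0, add_sub_cancel, Real.rpow_two]
    have c : 0 ≤ (θ⁻¹ ^ (2 - p)⁻¹) ^ p := by positivity
    have d := mul_le_mul_of_nonneg_left a (Real.rpow_nonneg hz p)
    rw [b]
    linarith

theorem half_le (q : ℕ) (hq : 0 < q) : (1 / 2 : ℝ) ^ q ≤ 1 / q := by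
  rw [one_div_pow]
  exact one_div_le_one_div_of_le (by exact_mod_cast hq) (by exact_mod_cast (Nat.lt_two_pow_self).le)

theorem est (r : ℕ) (hr : 0 < r) (n D : ℕ) (hn : n = 2 * r ^ 2) (hD : D = 2 ^ n * (20 * r))
    (f : Finset ℕ → S → ℂ) (hf : ∀ j, Continuous (f j))
    (f1 : ∀ j ⊆ range n, ∀ x, ‖f j x‖ ^ 2 ≤ Real.exp (-((D ^ 2 : ℕ) * sg (al j) (be n j) x ^ 2 / 3)))
    (f2 : ∀ j ⊆ range n, ∀ x, 1 - (D ^ 2 : ℕ) * sg (al j) (be n j) x ^ 2 ≤ ‖f j x‖ ^ 2)
    (p θ Z : ℝ) (h1 : 1 ≤ p) (h2 : p < 2) (hθ : 0 < θ) (hZ : 0 ≤ Z)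
    (hy : ∀ z : ℝ, 0 ≤ z → z ^ p ≤ θ * z ^ 2 + Z) : ∃ ε : Finset ℕ → ℂ,
      ∫ x in A, ‖∑ j ∈ (range n).powerset, ε j * f j x‖ ^ p ∂sm ≤ 15 * θ / r + (48 * Z + 24) / r ^ 2 ∧
      3 / (16000 * r) ≤ ∫ x, ‖∑ j ∈ (range n).powerset, ε j * f j x‖ ^ p ∂sm := by
  obtain ⟨ε, e1, e2⟩ := signs f hf (range n).powerset
  refine ⟨ε, ?_⟩
  obtain ⟨e, he⟩ : ∃ e : S → ℂ, e = fun x => ∑ j ∈ (range n).powerset, ε j * f j x := ⟨_, rfl⟩
  have he' : ∀ x, ∑ j ∈ (range n).powerset, ε j * f j x = e x := fun x => by rw [he]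
  have ce : Continuous e := by rw [he]; fun_prop
  have cp : Continuous fun x => ‖e x‖ ^ p := ce.norm.rpow_const fun _ => Or.inr (by linarith)
  simp only [he'] at e2 ⊢
  have r1 : (1 : ℝ) ≤ r := by exact_mod_cast hr
  have n1 : 1 ≤ n := by rw [hn]; nlinarith
  have nr : (n : ℝ) = 2 * r ^ 2 := by rw [hn]; push_cast; rfl
  have Dr : (D : ℝ) = 2 ^ n * (20 * r) := by rw [hD]; push_cast; rfl
  have N2 : (2 : ℝ) ≤ 2 ^ n := by simpa using pow_le_pow_right₀ (one_le_two (α := ℝ)) n1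
  have D0 : (0 : ℝ) < D := by rw [Dr]; positivity
  have D1 : 40 * (r : ℝ) ≤ D := by rw [Dr]; nlinarith
  obtain ⟨w, hw⟩ : ∃ w : ℝ, w = 6 * r / D := ⟨_, rfl⟩
  have w0 : 0 ≤ w := by rw [hw]; positivity
  have tail : ∀ j ⊆ range n, ∀ x, w ≤ |sg (al j) (be n j) x| → ‖ε j * f j x‖ ≤ (1 / 8) ^ n :=
    fun j hj x hx => by
      rw [norm_mul, e1, one_mul]
      refine (abs_le_of_sq_le_sq' ((f1 j hj x).trans ?_) (by positivity)).2
      have e3 : Real.exp (-1) ≤ 1 / 2 := by linarith [Real.exp_neg_one_lt_d9]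
      have : ((1 / 8 : ℝ) ^ n) ^ 2 = (1 / 2) ^ (6 * n) := by
        rw [← pow_mul, mul_comm n, pow_mul, pow_mul]; norm_num
      rw [this]
      refine le_trans ?_ (pow_le_pow_left₀ (Real.exp_pos _).le e3 _)
      rw [← Real.exp_nat_mul, Real.exp_le_exp]
      rw [hw, div_le_iff₀ D0] at hx
      have := pow_le_pow_left₀ (by positivity) hx 2
      rw [mul_pow |_|, sq_abs] at this
      push_cast
      nlinarith
  have tails : ∀ T ⊆ (range n).powerset, ∀ x, (∀ j ∈ T, w ≤ |sg (al j) (be n j) x|) →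
      ‖∑ j ∈ T, ε j * f j x‖ ≤ (1 / 4) ^ n := fun T hT x h => by
    refine (norm_sum_le _ _).trans ((sum_le_card_nsmul _ _ _ fun j hj =>
      tail j (mem_powerset.1 (hT hj)) x (h j hj)).trans ?_)
    have : (T.card : ℝ) ≤ 2 ^ n := by
      exact_mod_cast (card_le_card hT).trans_eq (by rw [card_powerset, card_range])
    rw [nsmul_eq_mul]
    refine (mul_le_mul_of_nonneg_right this (by positivity)).trans_eq ?_
    rw [← mul_pow]; norm_num
  have q4 : (1 / 4 : ℝ) ^ n ≤ 1 / 4 := by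
    simpa using pow_le_pow_of_le_one (by norm_num : (0 : ℝ) ≤ 1 / 4) (by norm_num) n1
  constructor
  · obtain ⟨K, hK⟩ : ∃ K : S → ℝ, K = fun x => ∑ i ∈ range (r ^ 2 + 1), ∑ Q ∈ (range i).powerset,
      I (Bx (al Q) (be n Q) ((i : ℝ) / n) (w + (1 / 2) ^ i / (r ^ 2 : ℕ)) (1 / n)) x := ⟨_, rfl⟩
    have K0 : ∀ x, 0 ≤ K x := fun x => by
      rw [hK]; exact sum_nonneg fun _ _ => sum_nonneg fun _ _ => I_nonneg _ _
    have Ki : Integrable K sm := by
      rw [hK]
      exact integrable_finsetSum _ fun _ _ => integrable_finsetSum _ fun _ _ => I_int (Bx_meas _ _ _ _ _)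
    have r2 : 0 < r ^ 2 := by positivity
    have Kv : ∫ x, K x ∂sm ≤ 48 / r ^ 2 := by
      rw [hK, integral_finsetSum _ fun _ _ =>
        integrable_finsetSum _ fun _ _ => I_int (Bx_meas _ _ _ _ _)]
      refine (sum_le_card_nsmul _ _ (24 / r ^ 2 / r ^ 2 : ℝ) fun i hi => ?_).trans ?_
      · rw [integral_finsetSum _ fun _ _ => I_int (Bx_meas _ _ _ _ _)]
        refine (sum_le_card_nsmul _ _ (24 * ((w + (1 / 2) ^ i / (r ^ 2 : ℕ)) * (1 / n)) : ℝ) fun Q _ =>
          (I_val (Bx_meas _ _ _ _ _)).trans_le (Bx_le _ _ _ _ _ (by positivity) (by positivity))).trans ?_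
        rw [card_powerset, card_range, nsmul_eq_mul, nr]
        have a : (2 : ℝ) ^ i * w ≤ 1 / r ^ 2 := by
          have b := half_le _ r2
          have c : (2 : ℝ) ^ i ≤ 2 ^ r ^ 2 :=
            pow_le_pow_right₀ one_le_two (Nat.lt_succ_iff.1 (mem_range.1 hi))
          push_cast at b
          refine (mul_le_mul_of_nonneg_right c w0).trans (le_trans ?_ b)
          rw [hw, Dr, hn, two_mul (r ^ 2), pow_add, one_div_pow]
          field_simp
          norm_num
        have b : (2 : ℝ) ^ i * (1 / 2) ^ i = 1 := by rw [← mul_pow]; norm_num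
        push_cast
        calc _ = 12 / (r : ℝ) ^ 2 * (2 ^ i * w + 2 ^ i * (1 / 2) ^ i / r ^ 2) := by ring
          _ ≤ 12 / (r : ℝ) ^ 2 * (1 / r ^ 2 + 1 / r ^ 2) := by rw [b]; gcongr
          _ = _ := by ring
      · rw [card_range, nsmul_eq_mul]
        push_cast
        field_simp
        nlinarith
    have i2 : Integrable (fun x => ‖e x‖ ^ 2) sm := cint (by fun_prop)
    have ig : Integrable (fun x => θ * ‖e x‖ ^ 2 + Z * K x + (1 / 4) ^ n) sm :=
      ((i2.const_mul _).add (Ki.const_mul _)).add (integrable_const _)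
    have e3 : ∫ x, ‖e x‖ ^ 2 ∂sm ≤ 15 / r := by
      refine e2.trans ((sum_le_card_nsmul _ _ (288 / D : ℝ) fun j hj => beam_int _ _
        (al_mem n j (mem_powerset.1 hj)) (be_mem n j (mem_powerset.1 hj)) D (by exact_mod_cast D0) _
        (fun _ => sq_nonneg _) (f1 j (mem_powerset.1 hj))).trans ?_)
      rw [card_powerset, card_range, nsmul_eq_mul, Dr]
      push_cast
      field_simp
      norm_num
    refine (setIntegral_mono_on (cint cp).integrableOn ig.integrableOn A_meas fun x hx => ?_).trans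
      ((setIntegral_le_integral ig (.of_forall fun x => ?_)).trans ?_)
    · have k0 := mul_nonneg hZ (K0 x)
      have t0 : 0 ≤ θ * ‖e x‖ ^ 2 := by positivity
      by_cases h : ∀ j ∈ (range n).powerset, w ≤ |sg (al j) (be n j) x|
      · have a := tails _ Subset.rfl x h
        rw [he'] at a
        have := Real.rpow_le_self_of_le_one (norm_nonneg (e x)) (by linarith) h1
        linarith
      push Not at h
      obtain ⟨j, hj, h⟩ := h
      have k1 : 1 ≤ K x := by
        obtain hx | hx := hx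
        · rw [hn] at hj h
          obtain ⟨i, hi, Q, hQ, m⟩ := cover _ r2 j (mem_powerset.1 hj) x w hx.1 hx.2 h.le
          rw [← hn] at m
          rw [hK]
          exact (I_one m).ge.trans <| (single_le_sum (f := fun Q => I (Bx (al Q) (be n Q) ((i : ℝ) / n)
            (w + (1 / 2) ^ i / (r ^ 2 : ℕ)) (1 / n)) x) (fun _ _ => I_nonneg _ _) hQ).trans
            (single_le_sum (f := fun i : ℕ => ∑ Q ∈ (range i).powerset, I (Bx (al Q) (be n Q)
              ((i : ℝ) / n) (w + (1 / 2) ^ i / (r ^ 2 : ℕ)) (1 / n)) x)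
              (fun _ _ => sum_nonneg fun _ _ => I_nonneg _ _) hi)
        · exfalso
          have a := al_mem n j (mem_powerset.1 hj)
          have b := be_mem n j (mem_powerset.1 hj)
          have c : w ≤ 6 / 40 := by rw [hw, div_le_iff₀ D0]; linarith
          have s := sph x
          have d := (abs_lt.1 h).1
          rw [sg] at d
          have g0 := mul_le_of_le_one_left (abs_nonneg (x.1 0)) a.2
          have g2 := mul_le_of_le_one_left (abs_nonneg (x.1 2)) b.2
          have k0 := mul_le_mul_of_nonneg_left (le_abs_self (x.1 0)) a.1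
          have k2 := mul_le_mul_of_nonneg_left (neg_abs_le (x.1 2)) b.1
          nlinarith [sq_abs (x.1 0), sq_abs (x.1 2), sq_nonneg (|x.1 0| - |x.1 2|),
            abs_nonneg (x.1 0), abs_nonneg (x.1 2)]
      have := hy _ (norm_nonneg (e x))
      have : (0 : ℝ) ≤ (1 / 4) ^ n := by positivity
      nlinarith
    · have := mul_nonneg hZ (K0 x)
      positivity
    · rw [integral_add (f := fun x => θ * ‖e x‖ ^ 2 + Z * K x)
          ((i2.const_mul _).add (Ki.const_mul _)) (integrable_const _),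
        integral_add (i2.const_mul _) (Ki.const_mul _), integral_const_mul, integral_const_mul,
        integral_const, smul_eq_mul]
      have a : (1 / 4 : ℝ) ^ n ≤ 1 / r ^ 2 := by
        have b := half_le _ r2
        push_cast at b
        refine le_trans ?_ b
        refine (pow_le_pow_left₀ (by norm_num) (by norm_num : (1 / 4 : ℝ) ≤ 1 / 2) n).trans
          (pow_le_pow_of_le_one (by norm_num) (by norm_num) (by omega))
      have b := mul_le_mul univ_le a (by positivity) (by norm_num)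
      have c := mul_le_mul_of_nonneg_left e3 hθ.le
      have d := mul_le_mul_of_nonneg_left Kv hZ
      refine (add_le_add (add_le_add c d) b).trans_eq (by ring)
  · refine le_trans ?_ (integral_mono (f := fun x => ∑ j ∈ (range n).powerset,
      1 / 4 * I (U (al j) (be n j) (1 / D)) x)
      (integrable_finsetSum _ fun _ _ => (I_int (U_meas _ _ _)).const_mul _) (cint cp) fun x => ?_)
    · rw [integral_finsetSum _ fun _ _ => (I_int (U_meas _ _ _)).const_mul _]
      refine le_trans ?_ (card_nsmul_le_sum _ _ (1 / 4 * (3 / 200 * (1 / D)) : ℝ) fun j hj => ?_)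
      · rw [card_powerset, card_range, nsmul_eq_mul, Dr]
        push_cast
        field_simp
        norm_num
      · rw [integral_const_mul, I_val (U_meas _ _ _)]
        exact mul_le_mul_of_nonneg_left (U_ge _ _ _ (al_mem n j (mem_powerset.1 hj))
          (be_mem n j (mem_powerset.1 hj)) (by positivity)
          (by rw [div_le_div_iff₀ D0 (by norm_num)]; linarith)) (by norm_num)
    by_cases h : ∃ j ∈ (range n).powerset, x ∈ U (al j) (be n j) (1 / D)
    swap
    · push Not at h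
      exact (sum_eq_zero fun j hj => by rw [I_zero (h j hj), mul_zero]).trans_le (by positivity)
    obtain ⟨j, hj, x2, x0, hx⟩ := h
    have far : ∀ i ∈ (range n).powerset.erase j, w ≤ |sg (al i) (be n i) x| := fun i hi => by
      have n0 : (0 : ℝ) < n := by exact_mod_cast n1
      have a := sep n (fun l => x.1 0 - (l : ℝ) / n * x.1 2) (2 / 5) (by norm_num)
        (fun l hl => by
          have : (l : ℝ) / n ≤ 1 := div_le_one_of_le₀ (by exact_mod_cast hl.le) n0.le
          nlinarith)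
        (fun a b h => by dsimp only; gcongr) i j (mem_powerset.1 (mem_erase.1 hi).2)
        (mem_powerset.1 hj) (mem_erase.1 hi).1
      have b := abs_sub (sg (al i) (be n i) x) (sg (al j) (be n j) x)
      rw [sg_eq, sg_eq, sub_sub_sub_cancel_right, ← sg_eq, ← sg_eq] at b
      have c : (1 / 2 : ℝ) ^ n * (2 / 5) = 8 * r / D := by
        rw [Dr, one_div_pow]; field_simp; norm_num
      have d : w + 1 / D / 2 ≤ 8 * r / D := by
        rw [hw]; field_simp; linarith
      linarith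
    have a := tails _ (erase_subset _ _) x far
    have b : 3 / 4 ≤ ‖ε j * f j x‖ := by
      rw [norm_mul, e1, one_mul]
      have c := f2 j (mem_powerset.1 hj) x
      have d := pow_le_pow_left₀ (abs_nonneg _) hx 2
      rw [sq_abs] at d
      have g := mul_le_mul_of_nonneg_left d (sq_nonneg (D : ℝ))
      have : (D : ℝ) ^ 2 * (1 / D / 2) ^ 2 = 1 / 4 := by field_simp; norm_num
      push_cast at c
      exact (abs_le_of_sq_le_sq' (by linarith) (norm_nonneg _)).2
    have c : 1 / 2 ≤ ‖e x‖ := by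
      rw [← he', ← add_sum_erase _ _ hj]
      have := norm_sub_norm_le (ε j * f j x) (-∑ i ∈ (range n).powerset.erase j, ε i * f i x)
      rw [norm_neg, sub_neg_eq_add] at this
      linarith
    have d : (1 / 4 : ℝ) ≤ ‖e x‖ ^ p := by
      refine le_trans ?_ (Real.rpow_le_rpow (by norm_num) c (by linarith))
      refine le_trans (le_of_eq ?_) (Real.rpow_le_rpow_of_exponent_ge (by norm_num) (by norm_num) h2.le)
      rw [Real.rpow_two]; norm_num
    refine le_trans (le_of_eq ?_) d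
    dsimp only
    rw [← add_sum_erase _ _ hj, I_one (T := U _ _ _) ⟨x2, x0, hx⟩, sum_eq_zero fun i hi => ?_]
    · norm_num
    rw [I_zero fun k => ?_, mul_zero]
    have g := (far i hi).trans k.2.2
    rw [hw] at g
    field_simp at g
    linarith

open MvPolynomial in
theorem main (p : ℝ) (h1 : 1 ≤ p) (h2 : p < 2) (c : ℝ) (hc : 0 < c) :
    ∃ k : ℕ, 1 ≤ k ∧ ∃ P : MvPolynomial (Fin 3) ℂ, P.IsHomogeneous k ∧
      ∑ i, pderiv i (pderiv i P) = 0 ∧ ∫ x in A, ‖eval (fun i => (x.1 i : ℂ)) P‖ ^ p ∂sm <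
        c * ∫ x, ‖eval (fun i => (x.1 i : ℂ)) P‖ ^ p ∂sm := by
  obtain ⟨Z, hZ, hy⟩ := young p (c / 240000) h1 h2 (by positivity)
  obtain ⟨r, hr⟩ := exists_nat_gt ((48 * Z + 24) * 8000 / c)
  have r0 : (0 : ℝ) < r := lt_trans (by positivity) hr
  have r1 : 0 < r := by exact_mod_cast r0
  obtain ⟨n, hn⟩ : ∃ n, n = 2 * r ^ 2 := ⟨_, rfl⟩
  obtain ⟨D, hD⟩ : ∃ D, D = 2 ^ n * (20 * r) := ⟨_, rfl⟩
  have : ∀ j : Finset ℕ, ∃ P : MvPolynomial (Fin 3) ℂ, P.IsHomogeneous (D ^ 2) ∧
      ∑ i, pderiv i (pderiv i P) = 0 ∧ (j ⊆ range n → ∀ x : S,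
      ‖eval (fun i => (x.1 i : ℂ)) P‖ ^ 2 ≤ Real.exp (-((D ^ 2 : ℕ) * sg (al j) (be n j) x ^ 2 / 3)) ∧
      1 - (D ^ 2 : ℕ) * sg (al j) (be n j) x ^ 2 ≤ ‖eval (fun i => (x.1 i : ℂ)) P‖ ^ 2) := fun j => by
    by_cases h : j ⊆ range n
    · obtain ⟨P, a, b, c⟩ := beam _ _ (al_mem n j h) (be_mem n j h) (D ^ 2)
      exact ⟨P, a, b, fun _ => c⟩
    · exact ⟨0, isHomogeneous_zero _ _ _, by simp, fun a => absurd a h⟩
  choose P p1 p2 p3 using this
  obtain ⟨ε, e1, e2⟩ := est r r1 n D hn hD (fun j x => eval (fun i => (x.1 i : ℂ)) (P j))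
    (fun j => (continuous_eval (P j)).comp (by fun_prop)) (fun j hj x => (p3 j hj x).1)
    (fun j hj x => (p3 j hj x).2) p _ Z h1 h2 (by positivity) hZ hy
  refine ⟨D ^ 2, Nat.one_le_pow _ _ (by rw [hD]; positivity),
    ∑ j ∈ (range n).powerset, C (ε j) * P j, IsHomogeneous.sum _ _ _ fun j _ => (p1 j).C_mul _, ?_, ?_⟩
  · simp only [map_sum, pderiv_C_mul]
    rw [sum_comm]
    exact sum_eq_zero fun j _ => by rw [← mul_sum, p2, mul_zero]
  · simp only [map_sum, map_mul, eval_C]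
    refine e1.trans_lt (lt_of_lt_of_le ?_ (mul_le_mul_of_nonneg_left e2 hc.le))
    rw [div_lt_iff₀ hc] at hr
    field_simp
    nlinarith

end Pool.Agent.H.MP_af75b4_an
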